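import Mathlib
import Pool.Agent.Y817.ISO.Stm

set_option autoImplicit false

/-! The base group of the project ISO: torsion-freeness, generation, universal property and the
embeddings of the subgroups of the rules. -/

namespace Pool.Agent.Y78.ISO.Base

open Pool.Agent.Y817.ISO

variable {P J : Type}

theorem act_of (v : Multiplicative (J → ℤ)) (p : P) (n : J → ℤ) :
    act P J v (FreeGroup.of (p, n)) = FreeGroup.of (p, n - v.toAdd) := by
  simp [act, tr]

theorem T_inl (p : P) (v : J → ℤ) :
    T (X0 P J) t0 p v = SemidirectProduct.inl (FreeGroup.of (p, v)) := by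
  have h := SemidirectProduct.inl_aut (φ := act P J) (Multiplicative.ofAdd v)⁻¹
    (FreeGroup.of (p, (0 : J → ℤ)))
  rw [act_of] at h
  simp only [toAdd_inv, toAdd_ofAdd, sub_neg_eq_add, zero_add, inv_inv] at h
  rw [h]
  rfl

theorem tf (P J : Type) : TF (G0 P J) := by
  intro x hx
  obtain ⟨n, hn, hxn⟩ := isOfFinOrder_iff_pow_eq_one.1 hx
  have hr : (SemidirectProduct.rightHom x : Multiplicative (J → ℤ)) ^ n = 1 := by
    rw [← map_pow, hxn, map_one]
  have hr1 : (SemidirectProduct.rightHom x : Multiplicative (J → ℤ)) = 1 := by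
    apply Multiplicative.toAdd.injective
    have h2 := congrArg Multiplicative.toAdd hr
    rw [toAdd_pow, toAdd_one] at h2
    rw [toAdd_one]
    funext j
    have h3 := congrFun h2 j
    simp only [Pi.smul_apply, Pi.zero_apply, nsmul_eq_mul, mul_eq_zero] at h3
    rcases h3 with h3 | h3
    · exfalso
      have : (n : ℤ) ≠ 0 := by exact_mod_cast hn.ne'
      exact this h3
    · exact h3
  have hx1 : x = SemidirectProduct.inl x.left := by
    apply SemidirectProduct.ext
    · simp
    · rw [SemidirectProduct.right_inl]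
      exact hr1
  rw [hx1, ← map_pow] at hxn
  have h4 : x.left ^ n = 1 := SemidirectProduct.inl_injective (by rw [hxn, map_one])
  have h5 : x.left = 1 := by
    apply pow_left_injective hn.ne'
    simpa using h4
  rw [hx1, h5, map_one]

theorem gen (P J : Type) :
    Subgroup.closure (Set.range (X0 P J) ∪ Set.range (t0 : P → G0 P J)) = ⊤ := by
  set S := Subgroup.closure (Set.range (X0 P J) ∪ Set.range (t0 : P → G0 P J)) with hS
  have hX : ∀ v, X0 P J v ∈ S := fun v => Subgroup.subset_closure (Or.inl ⟨v, rfl⟩)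
  have ht : ∀ p, (t0 p : G0 P J) ∈ S := fun p => Subgroup.subset_closure (Or.inr ⟨p, rfl⟩)
  have hof : ∀ y : P × (J → ℤ), (SemidirectProduct.inl (FreeGroup.of y) : G0 P J) ∈ S := by
    rintro ⟨p, v⟩
    rw [← T_inl]
    exact S.mul_mem (S.mul_mem (S.inv_mem (hX _)) (ht p)) (hX _)
  have hinl : ∀ y : FreeGroup (P × (J → ℤ)), (SemidirectProduct.inl y : G0 P J) ∈ S := by
    intro y
    induction y using FreeGroup.induction_on with
    | C1 => rw [map_one]; exact S.one_mem
    | of y => exact hof y
    | inv_of y _ => rw [map_inv]; exact S.inv_mem (hof y)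
    | mul y z hy hz => rw [map_mul]; exact S.mul_mem hy hz
  rw [eq_top_iff]
  rintro x -
  rw [← SemidirectProduct.inl_left_mul_inr_right x]
  exact S.mul_mem (hinl _) (hX _)

theorem T_sub {H : Type} [Group H] (X : Multiplicative (J → ℤ) →* H) (t : P → H) (p : P)
    (n v : J → ℤ) : T X t p (n - v) =
      X (Multiplicative.ofAdd v) * T X t p n * (X (Multiplicative.ofAdd v))⁻¹ := by
  unfold T
  have h : X (Multiplicative.ofAdd (n - v)) =
      X (Multiplicative.ofAdd n) * (X (Multiplicative.ofAdd v))⁻¹ := by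
    rw [ofAdd_sub, map_div, div_eq_mul_inv]
  rw [h]
  group

theorem univ (H : Type) [Group H] (X : Multiplicative (J → ℤ) →* H) (t : P → H) :
    ∃ Φ : G0 P J →* H, (∀ v, Φ (X0 P J v) = X v) ∧ ∀ p, Φ (t0 p) = t p := by
  refine ⟨SemidirectProduct.lift (FreeGroup.lift (fun x => T X t x.1 x.2)) X ?_, ?_, ?_⟩
  · intro v
    apply FreeGroup.ext_hom
    rintro ⟨p, n⟩
    simp only [MonoidHom.comp_apply, MulEquiv.coe_toMonoidHom, act_of, FreeGroup.lift_apply_of,
      MulAut.conj_apply]
    rw [T_sub, ofAdd_toAdd]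
  · intro v
    exact SemidirectProduct.lift_inr _ _ _ v
  · intro p
    show SemidirectProduct.lift _ _ _ (SemidirectProduct.inl _) = _
    rw [SemidirectProduct.lift_inl, FreeGroup.lift_apply_of]
    simp [T]

theorem emb (d : ℕ) (μ : (Fin d → ℤ) →+ (J → ℤ)) (hμ : Function.Injective μ) (p : P)
    (a : J → ℤ) : ∃ f : G0 Unit (Fin d) →* G0 P J, Function.Injective f ∧
      (∀ w : Fin d → ℤ, f (X0 Unit (Fin d) (Multiplicative.ofAdd w)) =
        X0 P J (Multiplicative.ofAdd (μ w))) ∧
      f (t0 ()) = T (X0 P J) t0 p a := by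
  refine ⟨SemidirectProduct.map
    (FreeGroup.map (fun x : Unit × (Fin d → ℤ) => (p, μ x.2 + a)))
    (AddMonoidHom.toMultiplicative μ) ?_, ?_, ?_, ?_⟩
  · intro v
    apply FreeGroup.ext_hom
    rintro ⟨⟨⟩, u⟩
    simp only [MonoidHom.comp_apply, MulEquiv.coe_toMonoidHom, act_of, FreeGroup.map.of]
    congr 2
    simp only [map_sub, AddMonoidHom.toMultiplicative_apply_apply, toAdd_ofAdd]
    abel
  · intro x y hxy
    have h1 := congrArg SemidirectProduct.left hxy
    have h2 := congrArg SemidirectProduct.right hxy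
    simp only [SemidirectProduct.map_left, SemidirectProduct.map_right] at h1 h2
    have h3 : x.left = y.left := by
      refine FreeGroup.map_injective ?_ h1
      rintro ⟨⟨⟩, u⟩ ⟨⟨⟩, v⟩ huv
      have h5 : u = v := hμ (add_right_cancel (Prod.mk.inj huv).2)
      rw [h5]
    have h4 : x.right = y.right := by
      apply Multiplicative.toAdd.injective
      apply hμ
      exact congrArg Multiplicative.toAdd h2
    exact SemidirectProduct.ext h3 h4
  · intro w
    show SemidirectProduct.map _ _ _ (SemidirectProduct.inr _) = _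
    rw [SemidirectProduct.map_inr]
    rfl
  · show SemidirectProduct.map _ _ _ (SemidirectProduct.inl _) = _
    rw [SemidirectProduct.map_inl, T_inl, FreeGroup.map.of]
    simp

/-- BASE. -/
theorem t : StmBase := by
  intro P J _
  exact ⟨tf P J, gen P J, fun H _ X t => univ H X t, fun d μ hμ p a => emb d μ hμ p a⟩

end Pool.Agent.Y78.ISO.Base
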